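import Pool.Agent.H.MP_e1341d_pr.Walk

namespace Pool.Agent.H.MP_e1341d_pr

open MeasureTheory ProbabilityTheory Relation
open scoped ENNReal NNReal

attribute [local irreducible] box

/-- the worms placed at one site, each given by its list of steps -/
abbrev Site := List (List (Fin 4))

instance : MeasurableSpace Site := ⊤

instance : MeasurableSingletonClass Site := ⟨fun _ => trivial⟩

/-- law of one worm: a length with law `m`, then that many uniform steps -/
noncomputable def worm (m : PMF ℕ) : PMF (List (Fin 4)) := m.bind walk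

/-- law of the worms at one site: a Poisson number of independent worms -/
noncomputable def site (v : ℝ≥0) (m : PMF ℕ) : PMF Site := (poissonMeasure v).toPMF.bind (iid (worm m))

/-- independent sites -/
noncomputable def P (v : ℝ≥0) (m : PMF ℕ) : Measure (V → Site) :=
  Measure.infinitePi fun _ => (site v m).toMeasure

/-- union of the traces of the worms started in `Λ` -/
def occ (Λ : Set V) (ω : V → Site) : Set V := {y | ∃ x ∈ Λ, ∃ w ∈ ω x, y ∈ trace x w}

def Adj (a b : V) : Prop := |a.1 - b.1| + |a.2 - b.2| = 1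

/-- joined by a nearest-neighbour path inside `S` -/
def Conn (S : Set V) : V → V → Prop := ReflTransGen fun a b => a ∈ S ∧ b ∈ S ∧ Adj a b

def Percolates (S : Set V) : Prop := ∃ a ∈ S, {b | Conn S a b}.Infinite

/-- critical intensity -/
noncomputable def vc (m : PMF ℕ) : ℝ≥0∞ :=
  ⨅ (v : ℝ≥0) (_ : 0 < v) (_ : 0 < P v m {ω | Percolates (occ Set.univ ω)}), (v : ℝ≥0∞)

instance (v m) : IsProbabilityMeasure (P v m) := by unfold P; infer_instance

lemma iid_le {α : Type} (q : PMF α) (W : Set α) (n : ℕ) :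
    (iid q n).toOuterMeasure {l | ∃ w ∈ l, w ∈ W} ≤ n * q.toOuterMeasure W := by
  induction n with
  | zero => simp [iid, PMF.toOuterMeasure_pure_apply]
  | succ n ih =>
    rw [iid, PMF.toOuterMeasure_bind_apply]
    calc _ ≤ ∑' a, (W.indicator q a + q a * (n * q.toOuterMeasure W)) := by
          refine ENNReal.tsum_le_tsum fun a => ?_
          by_cases ha : a ∈ W
          · rw [Set.indicator_of_mem ha]
            exact (mul_le_of_le_one_right' (om_le_one _ _)).trans le_self_add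
          · rw [PMF.toOuterMeasure_map_apply]
            refine le_add_left (mul_le_mul_right (le_trans (le_of_eq ?_) ih) _)
            congr 1; ext l; simp [ha]
      _ = _ := by
          rw [ENNReal.tsum_add, ENNReal.tsum_mul_right, q.tsum_coe, ← PMF.toOuterMeasure_apply]
          push_cast; ring

lemma pois_mean (v : ℝ≥0) : ∑' n : ℕ, (poissonMeasure v).toPMF n * (n : ℝ≥0∞) = v := by
  rw [tsum_eq_zero_add' ENNReal.summable]
  have : ∀ n : ℕ, (poissonMeasure v).toPMF (n + 1) * ((n + 1 : ℕ) : ℝ≥0∞)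
      = v * (poissonMeasure v).toPMF n := by
    intro n
    rw [Measure.toPMF_apply, Measure.toPMF_apply, poissonMeasure_singleton, poissonMeasure_singleton,
      ← ENNReal.ofReal_natCast, ← ENNReal.ofReal_mul (by positivity), ← ENNReal.ofReal_coe_nnreal,
      ← ENNReal.ofReal_mul (by positivity)]
    congr 1
    rw [Nat.factorial_succ]; push_cast; field_simp; ring
  simp only [this, ENNReal.tsum_mul_left, PMF.tsum_coe]
  simp

lemma P_ex (v : ℝ≥0) (m : PMF ℕ) (W : V → Set (List (Fin 4))) :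
    P v m {ω | ∃ x, ∃ w ∈ ω x, w ∈ W x} ≤ ∑' x, v * (worm m).toOuterMeasure (W x) := by
  have : {ω : V → Site | ∃ x, ∃ w ∈ ω x, w ∈ W x} = ⋃ x, Function.eval x ⁻¹' {l | ∃ w ∈ l, w ∈ W x} := by
    ext ω; simp
  rw [this]
  refine (measure_iUnion_le _).trans (ENNReal.tsum_le_tsum fun x => ?_)
  rw [P, (measurePreserving_eval_infinitePi _ x).measure_preimage (by trivial : MeasurableSet _).nullMeasurableSet,
    PMF.toMeasure_apply_eq_toOuterMeasure, site, PMF.toOuterMeasure_bind_apply, ← pois_mean,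
    ← ENNReal.tsum_mul_right]
  exact ENNReal.tsum_le_tsum fun n => by rw [mul_assoc]; exact mul_le_mul_right (iid_le _ _ n) _

lemma P_indep (v : ℝ≥0) (m : PMF ℕ) (S S' : Finset V) (hd : Disjoint S S') (E E' : Set (V → Site))
    (hE : ∀ ω ω', (∀ x ∈ S, ω x = ω' x) → ω ∈ E → ω' ∈ E)
    (hE' : ∀ ω ω', (∀ x ∈ S', ω x = ω' x) → ω ∈ E' → ω' ∈ E') :
    P v m (E ∩ E') = P v m E * P v m E' := by
  have key : ∀ (S : Finset V) (E : Set (V → Site)), (∀ ω ω', (∀ x ∈ S, ω x = ω' x) → ω ∈ E → ω' ∈ E) →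
      E = (fun ω (i : S) => ω i) ⁻¹' ((fun ω (i : S) => ω i) '' E) := by
    intro S E hE
    refine Set.Subset.antisymm (Set.subset_preimage_image _ _) ?_
    rintro ω ⟨ω', h1, h2⟩
    exact hE ω' ω (fun x hx => congrFun h2 ⟨x, hx⟩) h1
  have h1 := (iIndepFun_infinitePi (P := fun _ : V => (site v m).toMeasure) (X := fun _ a => a)
    fun _ => measurable_id).indepFun_finset S S' hd fun i => measurable_pi_apply i
  rw [key S E hE, key S' E' hE']
  exact h1.measure_inter_preimage_eq_mul _ _ (Set.to_countable _).measurableSet (Set.to_countable _).measurableSet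

lemma Adj.le {a b : V} (h : Adj a b) : b.1 - 1 ≤ a.1 ∧ a.1 ≤ b.1 + 1 ∧ b.2 - 1 ≤ a.2 ∧ a.2 ≤ b.2 + 1 := by
  unfold Adj at h
  have := abs_cases (a.1 - b.1); have := abs_cases (a.2 - b.2); omega

lemma Conn.mono {S S' : Set V} (h : S ⊆ S') {a b : V} (H : Conn S a b) : Conn S' a b :=
  by
  induction H with
  | refl => exact .refl
  | tail _ x ih => exact ih.tail ⟨h x.1, h x.2.1, x.2.2⟩

lemma hit {S : Set V} {a z : V} (c : V) (R : ℤ) (H : Conn S a z) (hz : z ∉ box c R) :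
    a ∈ box c R → ∃ u ∈ box c R, u ∉ box c (R - 1) ∧ Conn S u z := by
  induction H using ReflTransGen.head_induction_on with
  | refl => exact fun h => absurd h hz
  | @head a a' h1 h2 ih =>
    intro ha
    by_cases h : a ∈ box c (R - 1)
    · refine ih ?_
      have := h1.2.2.le
      rw [mem_box] at h ⊢; omega
    · exact ⟨a, ha, h, h2.head h1⟩

lemma exit {S : Set V} {a z : V} (c : V) (R : ℤ) (H : Conn S a z) (hz : z ∉ box c R) :
    a ∈ box c R → ∃ u ∉ box c R, Conn (S ∩ box c (R + 1)) a u := by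
  induction H using ReflTransGen.head_induction_on with
  | refl => exact fun h => absurd h hz
  | @head a a' h1 h2 ih =>
    intro ha
    have := h1.2.2.le
    have s : a ∈ S ∩ box c (R + 1) ∧ a' ∈ S ∩ box c (R + 1) ∧ Adj a a' := by
      refine ⟨⟨h1.1, ?_⟩, ⟨h1.2.1, ?_⟩, h1.2.2⟩ <;> rw [Finset.mem_coe, mem_box] <;> rw [mem_box] at ha <;> omega
    by_cases h : a' ∈ box c R
    · obtain ⟨u, hu, hu'⟩ := ih h
      exact ⟨u, hu, hu'.head s⟩
    · exact ⟨a', h, .single s⟩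

def G (c : V) (r : ℕ) : Set (V → Site) :=
  {ω | ∃ a ∈ box c r, ∃ b ∉ box c (8 * r), Conn (occ (box c (10 * r)) ω) a b}

def Big (c : V) (r : ℕ) : Set (V → Site) :=
  {ω | ∃ x, ∃ w ∈ ω x, w ∈ {w | x ∈ box c (100 * r) ∧ ∃ y ∈ trace x w, y ∉ box x r}}

def Far (c : V) (r : ℕ) : Set (V → Site) :=
  {ω | ∃ x, ∃ w ∈ ω x, w ∈ {w | x ∉ box c (10 * r) ∧ ∃ y ∈ trace x w, y ∈ box c (9 * r)}}

noncomputable def net (c : V) (r : ℕ) : Finset V := (box 0 (60 : ℕ)).image fun q => (c.1 + r * q.1, c.2 + r * q.2)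

lemma near {c u : V} {r : ℕ} (hr : 0 < r) (hu : u ∈ box c (60 * r)) : ∃ x ∈ net c r, u ∈ box x r := by
  have hr' : (0 : ℤ) < r := by exact_mod_cast hr
  have k : ∀ t : ℤ, -(60 * r) ≤ t → t ≤ 60 * r → ∃ q : ℤ, -60 ≤ q ∧ q ≤ 60 ∧ r * q ≤ t ∧ t ≤ r * q + r := by
    intro t h1 h2
    refine ⟨t / r, Int.le_ediv_of_mul_le hr' (by linarith), Int.ediv_le_of_le_mul hr' h2, ?_, ?_⟩
    · have := Int.emod_add_mul_ediv t r; have := Int.emod_nonneg t hr'.ne'; linarith
    · have := Int.emod_add_mul_ediv t r; have := Int.emod_lt_of_pos t hr'; linarith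
  rw [mem_box] at hu
  obtain ⟨q1, a1, a2, a3, a4⟩ := k (u.1 - c.1) (by linarith) (by linarith)
  obtain ⟨q2, b1, b2, b3, b4⟩ := k (u.2 - c.2) (by linarith) (by linarith)
  refine ⟨_, Finset.mem_image.2 ⟨(q1, q2), by rw [mem_box]; simp; omega, rfl⟩, ?_⟩
  rw [mem_box]; dsimp only
  refine ⟨?_, ?_, ?_, ?_⟩ <;> linarith

lemma G_dep (c : V) (r : ℕ) (ω ω' : V → Site) (h : ∀ x ∈ box c (10 * r), ω x = ω' x) :
    ω ∈ G c r → ω' ∈ G c r := by
  rintro ⟨a, ha, b, hb, H⟩
  refine ⟨a, ha, b, hb, H.mono ?_⟩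
  rintro y ⟨x, hx, w, hw, hy⟩
  exact ⟨x, hx, w, h x hx ▸ hw, hy⟩

lemma G_rec (c : V) {r : ℕ} (hr : 0 < r) : G c (10 * r) ⊆ Big c r ∪
    ⋃ q ∈ ((net c r).filter (· ∈ box c (21 * r))) ×ˢ ((net c r).filter (· ∉ box c (58 * r))),
      G q.1 r ∩ G q.2 r := by
  rintro ω ⟨a, ha, z, hz, H⟩
  by_cases hB : ω ∈ Big c r
  · exact Or.inl hB
  right
  have loc : ∀ u, u ∈ box c (60 * r) → Conn (occ (box c (10 * (10 * r : ℕ))) ω) u z →
      ∃ x ∈ net c r, u ∈ box x r ∧ ω ∈ G x r := by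
    intro u hu H
    obtain ⟨x, hx, hux⟩ := near hr hu
    obtain ⟨b, hb, H'⟩ := exit x (8 * r) H (by rw [mem_box] at *; push_cast at hz; omega)
      (by rw [mem_box] at *; omega)
    refine ⟨x, hx, hux, u, hux, b, hb, H'.mono ?_⟩
    rintro y ⟨⟨x', hx', w, hw, hy⟩, hy'⟩
    refine ⟨x', ?_, w, hw, hy⟩
    have : y ∈ box x' r := by
      by_contra hc
      refine hB ⟨x', w, hw, ?_, y, hy, hc⟩
      rw [Finset.mem_coe, mem_box] at hx'; rw [mem_box]; push_cast at hx'; omega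
    rw [Finset.mem_coe, mem_box] at hy' ⊢; rw [mem_box] at this; omega
  obtain ⟨u1, a1, -, a3⟩ := hit c (20 * r) H (by rw [mem_box] at *; push_cast at hz; omega)
    (by rw [mem_box] at *; push_cast at ha; omega)
  obtain ⟨u2, b1, b2, b3⟩ := hit c (60 * r) H (by rw [mem_box] at *; push_cast at hz; omega)
    (by rw [mem_box] at *; push_cast at ha; omega)
  obtain ⟨x1, c1, c2, c3⟩ := loc u1 (by rw [mem_box] at *; omega) a3
  obtain ⟨x2, d1, d2, d3⟩ := loc u2 b1 b3
  refine Set.mem_biUnion (x := (x1, x2)) ?_ ⟨c3, d3⟩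
  rw [Finset.mem_coe, Finset.mem_product, Finset.mem_filter, Finset.mem_filter]
  refine ⟨⟨c1, ?_⟩, d1, ?_⟩ <;> rw [mem_box] at * <;> dsimp only <;> omega

lemma P_rec (v : ℝ≥0) (m : PMF ℕ) (c : V) {r : ℕ} (hr : 0 < r) (b : ℝ≥0∞) (hb : ∀ x, P v m (G x r) ≤ b) :
    P v m (G c (10 * r)) ≤ P v m (Big c r) + (121 ^ 4 : ℕ) * (b * b) := by
  refine (measure_mono (G_rec c hr)).trans ((measure_union_le _ _).trans (add_le_add_right ?_ _))
  refine (measure_biUnion_finset_le _ _).trans ((Finset.sum_le_card_nsmul _ _ (b * b) ?_).trans ?_)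
  · intro q hq
    rw [Finset.mem_product, Finset.mem_filter, Finset.mem_filter] at hq
    rw [P_indep v m (box q.1 (10 * r)) (box q.2 (10 * r)) ?_ _ _ (G_dep _ _) (G_dep _ _)]
    · exact mul_le_mul' (hb _) (hb _)
    · rw [Finset.disjoint_left]
      intro y h1 h2
      have h3 := hq.1.2
      have h4 := hq.2.2
      rw [mem_box] at *; omega
  · rw [nsmul_eq_mul]
    refine mul_le_mul_left (Nat.cast_le.2 ?_) _
    have : (net c r).card ≤ 121 ^ 2 := Finset.card_image_le.trans (card_box _ _).le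
    rw [Finset.card_product]
    exact (Nat.mul_le_mul ((Finset.card_filter_le _ _).trans this) ((Finset.card_filter_le _ _).trans this)).trans
      (by norm_num)

lemma perc_sub (a : V) {r : ℕ} (hr : 0 < r) :
    {ω | {b | Conn (occ Set.univ ω) a b}.Infinite} ⊆ G a r ∪ Far a r := by
  intro ω hω
  by_cases hF : ω ∈ Far a r
  · exact Or.inr hF
  left
  obtain ⟨z, H, hz⟩ := Set.Infinite.exists_notMem_finset hω (box a (8 * r))
  obtain ⟨b, hb, H'⟩ := exit a (8 * r) H hz (by rw [mem_box]; omega)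
  refine ⟨a, by rw [mem_box]; omega, b, hb, H'.mono ?_⟩
  rintro y ⟨⟨x, -, w, hw, hy⟩, hy'⟩
  refine ⟨x, ?_, w, hw, hy⟩
  by_contra hc
  refine hF ⟨x, w, hw, hc, y, hy, ?_⟩
  rw [Finset.mem_coe, mem_box] at hy'; rw [mem_box]; omega

lemma sum_box (c : V) (r : ℕ) (f : V → ℝ≥0∞) (b : ℝ≥0∞) (h0 : ∀ x ∉ box c r, f x = 0)
    (h : ∀ x, f x ≤ b) : ∑' x, f x ≤ ((2 * r + 1) ^ 2 : ℕ) * b := by
  rw [tsum_eq_sum h0, ← card_box c r, ← nsmul_eq_mul]
  exact Finset.sum_le_card_nsmul _ _ _ fun x _ => h x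

lemma G_one (v : ℝ≥0) (m : PMF ℕ) (c : V) : P v m (G c 1) ≤ (441 : ℕ) * v := by
  have : G c 1 ⊆ {ω | ∃ x, ∃ w ∈ ω x, w ∈ {_w | x ∈ box c (10 : ℕ)}} := by
    rintro ω ⟨a, ha, b, hb, H⟩
    rcases H.cases_head with rfl | ⟨a', ⟨⟨x, hx, w, hw, -⟩, -⟩, -⟩
    · exfalso; rw [mem_box] at *; omega
    · exact ⟨x, w, hw, by simpa using hx⟩
  refine (measure_mono this).trans ((P_ex v m _).trans (sum_box c 10 _ _ (fun x hx => ?_) fun x => ?_))
  · simp only [hx]; simp
  · exact mul_le_of_le_one_right' (om_le_one _ _)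

end Pool.Agent.H.MP_e1341d_pr
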