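import Mathlib

namespace Pool.Agent.H.MP_e1341d_pr

open MeasureTheory ProbabilityTheory
open scoped ENNReal NNReal

abbrev V := ℤ × ℤ

/-- the four unit steps -/
def st : Fin 4 → V := ![(1, 0), (-1, 0), (0, 1), (0, -1)]

/-- vertices visited by the walk started at `x` with the given list of steps -/
def trace : V → List (Fin 4) → Set V
  | x, [] => {x}
  | x, e :: w => insert x (trace (x + st e) w)

/-- law of a list of `n` independent samples of `p` -/
noncomputable def iid {α : Type} (p : PMF α) : ℕ → PMF (List α)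
  | 0 => PMF.pure []
  | n + 1 => p.bind fun a => (iid p n).map (a :: ·)

/-- law of the steps of a simple random walk run for `n` steps -/
noncomputable def walk (n : ℕ) : PMF (List (Fin 4)) := iid (PMF.uniformOfFintype (Fin 4)) n

noncomputable def O (n : ℕ) (A : Set (List (Fin 4))) : ℝ≥0∞ := (walk n).toOuterMeasure A

lemma om_le_one {α : Type} (p : PMF α) (A : Set α) : p.toOuterMeasure A ≤ 1 := by
  rw [PMF.toOuterMeasure_apply, ← p.tsum_coe]
  exact ENNReal.tsum_le_tsum fun a => Set.indicator_le_self _ _ a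

noncomputable def T (f : V → ℝ≥0∞) (x : V) : ℝ≥0∞ :=
  4⁻¹ * (f (x + (1, 0)) + f (x + (-1, 0)) + f (x + (0, 1)) + f (x + (0, -1)))

open Classical in
lemma O_zero (A : Set (List (Fin 4))) : O 0 A = if [] ∈ A then 1 else 0 :=
  PMF.toOuterMeasure_pure_apply _ _

lemma O_succ (n : ℕ) (F : V → Set (List (Fin 4))) (A : Set (List (Fin 4))) (x : V)
    (h : ∀ e w, e :: w ∈ A → w ∈ F (x + st e)) : O (n + 1) A ≤ T (fun y => O n (F y)) x := by
  have : O (n + 1) A = ∑ e : Fin 4, 4⁻¹ * O n ((e :: ·) ⁻¹' A) := by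
    simp [O, walk, iid, PMF.toOuterMeasure_bind_apply, PMF.toOuterMeasure_map_apply, tsum_fintype]
  rw [this, ← Finset.mul_sum, T]
  refine mul_le_mul_right ?_ _
  refine (Finset.sum_le_sum (g := fun e => O n (F (x + st e))) fun e _ =>
    (walk n).toOuterMeasure.mono fun w hw => h e w hw).trans ?_
  simp [Fin.sum_univ_four, st]

lemma T_mono {f g : V → ℝ≥0∞} (h : ∀ x, f x ≤ g x) (x : V) : T f x ≤ T g x := by
  unfold T; gcongr <;> exact h _

lemma T_mul (f : V → ℝ≥0∞) (c : ℝ≥0∞) (x : V) : T (fun y => f y * c) x = T f x * c := by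
  unfold T; ring

lemma T_add (f g : V → ℝ≥0∞) (x : V) : T (fun y => f y + g y) x = T f x + T g x := by
  unfold T; ring

lemma four (a : ℝ≥0∞) : 4⁻¹ * (4 * a) = a := by
  rw [← mul_assoc, ENNReal.inv_mul_cancel (by norm_num) (by norm_num), one_mul]

lemma T_const (c : ℝ≥0∞) (x : V) : T (fun _ => c) x = c := by
  unfold T; rw [show c + c + c + c = 4 * c by ring, four]

def N (y : V) : ℕ := y.1.natAbs ^ 2 + y.2.natAbs ^ 2

lemma N_cast (y : V) : (N y : ℤ) = y.1 ^ 2 + y.2 ^ 2 := by simp [N]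

lemma T_N (c x : V) : T (fun y => (N (y - c) : ℝ≥0∞)) x = N (x - c) + 1 := by
  have : N (x + (1, 0) - c) + N (x + (-1, 0) - c) + N (x + (0, 1) - c) + N (x + (0, -1) - c)
      = 4 * (N (x - c) + 1) := by
    zify; simp only [N_cast, Prod.fst_sub, Prod.snd_sub, Prod.fst_add, Prod.snd_add]; ring
  unfold T
  rw [← four ((N (x - c) : ℝ≥0∞) + 1)]
  congr 1
  dsimp only
  exact_mod_cast this

noncomputable def box (c : V) (r : ℤ) : Finset V :=
  Finset.Icc (c.1 - r) (c.1 + r) ×ˢ Finset.Icc (c.2 - r) (c.2 + r)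

lemma mem_box {c y : V} {r : ℤ} :
    y ∈ box c r ↔ c.1 - r ≤ y.1 ∧ y.1 ≤ c.1 + r ∧ c.2 - r ≤ y.2 ∧ y.2 ≤ c.2 + r := by
  simp [box, and_assoc]

lemma card_box (c : V) (r : ℕ) : (box c r).card = (2 * r + 1) ^ 2 := by
  have h : ∀ a : ℤ, (a + r + 1 - (a - r)).toNat = 2 * r + 1 := fun a => by omega
  simp only [box, Finset.card_product, Int.card_Icc, h]; ring

lemma N_of_not_box {c y : V} {r : ℕ} (h : y ∉ box c r) : (r + 1) ^ 2 ≤ N (y - c) := by
  rw [mem_box] at h
  zify
  rw [N_cast]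
  simp only [Prod.fst_sub, Prod.snd_sub]
  have hr : (0 : ℤ) ≤ r := Int.natCast_nonneg r
  have : y.1 - c.1 ≥ r + 1 ∨ y.1 - c.1 ≤ -(r + 1) ∨ y.2 - c.2 ≥ r + 1 ∨ y.2 - c.2 ≤ -(r + 1) := by omega
  rcases this with h | h | h | h <;> nlinarith [sq_nonneg (y.1 - c.1), sq_nonneg (y.2 - c.2)]

lemma kolm (c : V) (r n : ℕ) : ∀ a : V,
    O n {w | ∃ y ∈ trace a w, y ∉ box c r} * (r : ℝ≥0∞) ^ 2 ≤ N (a - c) + n := by
  have base : ∀ (n : ℕ) (a : V), a ∉ box c r →
      O n {w | ∃ y ∈ trace a w, y ∉ box c r} * (r : ℝ≥0∞) ^ 2 ≤ N (a - c) + n := by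
    intro n a ha
    have h1 : r ^ 2 ≤ N (a - c) + n :=
      ((Nat.pow_le_pow_left (Nat.le_succ r) 2).trans (N_of_not_box ha)).trans (Nat.le_add_right _ _)
    calc _ ≤ 1 * (r : ℝ≥0∞) ^ 2 := mul_le_mul_left (om_le_one _ _) _
      _ ≤ _ := by rw [one_mul]; exact_mod_cast h1
  induction n with
  | zero =>
    intro a
    by_cases ha : a ∈ box c r
    · rw [O_zero, if_neg, zero_mul]
      · exact bot_le
      · rintro ⟨y, rfl, hy⟩; exact hy ha
    · exact base 0 a ha
  | succ n ih =>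
    intro a
    by_cases ha : a ∈ box c r
    · have := O_succ n (fun a => {w | ∃ y ∈ trace a w, y ∉ box c r})
        {w | ∃ y ∈ trace a w, y ∉ box c r} a (by
          rintro e w ⟨y, hy, hy'⟩
          rcases hy with rfl | hy
          · exact absurd ha hy'
          · exact ⟨y, hy, hy'⟩)
      refine (mul_le_mul_left this _).trans ?_
      rw [← T_mul]
      refine (T_mono ih a).trans ?_
      rw [T_add, T_N, T_const]; push_cast; exact le_of_eq (by ring)
    · exact base _ a ha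

lemma reach (c : V) (n : ℕ) : ∀ (r : ℤ) (a : V), a ∈ box c (r - n) →
    O n {w | ∃ y ∈ trace a w, y ∉ box c r} = 0 := by
  induction n with
  | zero =>
    intro r a ha
    rw [O_zero, if_neg]
    rintro ⟨y, rfl, hy⟩; exact hy (by simpa using ha)
  | succ n ih =>
    intro r a ha
    have : O (n + 1) {w | ∃ y ∈ trace a w, y ∉ box c r} = ∑ e : Fin 4, 4⁻¹ *
        O n ((e :: ·) ⁻¹' {w | ∃ y ∈ trace a w, y ∉ box c r}) := by
      simp [O, walk, iid, PMF.toOuterMeasure_bind_apply, PMF.toOuterMeasure_map_apply, tsum_fintype]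
    rw [this]
    refine Finset.sum_eq_zero fun e _ => mul_eq_zero_of_right _ (le_antisymm ?_ bot_le)
    rw [← ih r (a + st e) (by
      rw [mem_box] at ha ⊢; push_cast at ha
      fin_cases e <;> simp [st] <;> omega)]
    refine (walk n).toOuterMeasure.mono ?_
    rintro w ⟨y, hy, hy'⟩
    rcases hy with rfl | hy
    · exact absurd (by rw [mem_box] at ha ⊢; push_cast at ha; omega) hy'
    · exact ⟨y, hy, hy'⟩

lemma trace_sub (c y : V) (w : List (Fin 4)) : ∀ x, y ∈ trace x w → y - c ∈ trace (x - c) w := by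
  induction w with
  | nil => intro x h; simp only [trace, Set.mem_singleton_iff] at h ⊢; rw [h]
  | cons e w ih =>
    intro x h
    rcases h with rfl | h
    · exact Or.inl rfl
    · right; have := ih _ h; rwa [add_sub_right_comm] at this

noncomputable def h (n : ℕ) (x : V) : ℝ≥0∞ := O n {w | (0 : V) ∈ trace x w}

noncomputable def p : ℕ → V → ℝ≥0∞
  | 0 => fun x => if x = 0 then 1 else 0
  | n + 1 => T (p n)

noncomputable def g (n : ℕ) (x : V) : ℝ≥0∞ := ∑ t ∈ Finset.range (n + 1), p t x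

lemma g_succ (n : ℕ) (x : V) : g (n + 1) x = T (g n) x + p 0 x := by
  rw [g, Finset.sum_range_succ']
  congr 1
  simp only [p, T, g, ← Finset.mul_sum, Finset.sum_add_distrib]

lemma g_mono {m n : ℕ} (hmn : m ≤ n) (x : V) : g m x ≤ g n x :=
  Finset.sum_le_sum_of_subset (Finset.range_mono (by omega))

lemma h_g (m n : ℕ) : ∀ x, h n x * g m 0 ≤ g (n + m) x := by
  have base : ∀ n, h n 0 * g m 0 ≤ g (n + m) 0 := fun n =>
    (mul_le_mul_left (om_le_one _ _) _).trans (by rw [one_mul]; exact g_mono (by omega) 0)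
  induction n with
  | zero =>
    intro x
    by_cases hx : x = 0
    · rw [hx]; exact base 0
    · have : (0 : V) ≠ x := fun h => hx h.symm
      simp [h, O_zero, trace, this]
  | succ n ih =>
    intro x
    by_cases hx : x = 0
    · rw [hx]; exact base _
    · have := O_succ n (fun a => {w | (0 : V) ∈ trace a w}) {w | (0 : V) ∈ trace x w} x (by
        rintro e w (hy | hy)
        · exact absurd hy.symm hx
        · exact hy)
      refine (mul_le_mul_left this _).trans ?_
      rw [← T_mul, show n + 1 + m = (n + m) + 1 by ring, g_succ]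
      exact (T_mono ih x).trans le_self_add

lemma T_adj (f k : V → ℝ≥0∞) : ∑' x, T f x * k x = ∑' x, f x * T k x := by
  have e : ∀ s : V, ∑' x, f (x + s) * k x = ∑' x, f x * k (x + -s) := fun s => by
    rw [← (Equiv.addRight s).tsum_eq (fun x => f x * k (x + -s))]; simp
  simp only [T, mul_assoc, add_mul, mul_add, ENNReal.tsum_add, ENNReal.tsum_mul_left, mul_left_comm (f _), e]
  simp only [Prod.neg_mk, neg_zero, neg_neg]
  ring

lemma p_sum (n : ℕ) : ∑' x, p n x = 1 := by
  induction n with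
  | zero => simp [p]
  | succ n ih =>
    have := T_adj (p n) (fun _ => 1)
    simpa [T_const, ih, p] using this

lemma p_N (n : ℕ) : ∑' x, p n x * (N x : ℝ≥0∞) = n := by
  induction n with
  | zero =>
    rw [tsum_eq_single 0 (fun b hb => by simp [p, hb])]; simp [N]
  | succ n ih =>
    have e := T_N 0
    simp only [sub_zero] at e
    simp only [p, T_adj, e, mul_add, ENNReal.tsum_add, ih, mul_one, p_sum]
    push_cast; rfl

lemma p_conv (a b : ℕ) : ∑' x, p a x * p b x = p (a + b) 0 := by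
  induction b generalizing a with
  | zero => rw [tsum_eq_single 0 (fun b hb => by simp [p, hb])]; simp [p]
  | succ b ih => rw [p, ← T_adj, show a + (b + 1) = (a + 1) + b by ring, ← ih]; rfl

lemma p_le (n : ℕ) (x : V) : p n x ≤ 1 := (ENNReal.le_tsum x).trans (p_sum n).le

lemma p_low (n : ℕ) (hn : 0 < n) : (n : ℝ≥0∞)⁻¹ ≤ 72 * p (n + n) 0 := by
  obtain ⟨R, hR1, hR2⟩ : ∃ R, R * R ≤ 2 * n ∧ 2 * n < (R + 1) * (R + 1) :=
    ⟨Nat.sqrt (2 * n), Nat.sqrt_le _, Nat.lt_succ_sqrt _⟩
  have hR0 : 1 ≤ R := by by_contra h; have : R = 0 := by omega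
                         rw [this] at hR2; omega
  have hout : (∑' x : ↑((box 0 R : Set V)ᶜ), p n x) * (2 * n : ℕ) ≤ n := by
    rw [← p_N n, ← ENNReal.tsum_mul_right]
    refine le_trans (ENNReal.tsum_le_tsum fun x => ?_)
      (ENNReal.tsum_comp_le_tsum_of_injective Subtype.val_injective fun x => p n x * (N x : ℝ≥0∞))
    have := N_of_not_box (c := 0) (y := x) (r := R) x.2
    rw [sub_zero] at this
    gcongr
    nlinarith
  have hsplit : ∑ x ∈ box 0 R, p n x + ∑' x : ↑((box 0 R : Set V)ᶜ), p n x = 1 := by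
    exact (ENNReal.sum_add_tsum_compl (box 0 R) (p n)).trans (p_sum n)
  have hfin : ∀ x, p n x ≠ ⊤ := fun x => ne_top_of_le_ne_top ENNReal.one_ne_top (p_le n x)
  set o := ∑' x : ↑((box 0 R : Set V)ᶜ), p n x
  have ho : o ≠ ⊤ := ne_top_of_le_ne_top ENNReal.one_ne_top (hsplit ▸ le_add_self)
  have a1 := ENNReal.toReal_mono (by simp) hout
  have a2 := congrArg ENNReal.toReal hsplit
  rw [ENNReal.toReal_add (ENNReal.sum_ne_top.2 fun x _ => hfin x) ho,
    ENNReal.toReal_sum fun x _ => hfin x] at a2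
  have a3 : ∑ x ∈ box 0 R, p n x * p n x ≤ p (n + n) 0 := by
    rw [← p_conv]; exact ENNReal.sum_le_tsum _
  have hf2 : p (n + n) 0 ≠ ⊤ := ne_top_of_le_ne_top ENNReal.one_ne_top (p_le _ _)
  have a4 := ENNReal.toReal_mono hf2 a3
  rw [ENNReal.toReal_sum fun x _ => ENNReal.mul_ne_top (hfin x) (hfin x)] at a4
  have a5 := sq_sum_le_card_mul_sum_sq (s := box 0 R) (f := fun x => (p n x).toReal)
  rw [card_box] at a5
  simp only [ENNReal.toReal_mul, ENNReal.toReal_natCast, ENNReal.toReal_one] at a1 a2 a4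
  simp only [← sq] at a4
  have hn0 : (0 : ℝ) < n := by positivity
  have a6 : (((2 * R + 1) ^ 2 : ℕ) : ℝ) ≤ 18 * n := by
    have : (2 * R + 1) ^ 2 ≤ 18 * n := by nlinarith
    exact_mod_cast this
  have a7 : o.toReal ≤ 1 / 2 := by push_cast at a1; nlinarith
  have a8 : 1 / 4 ≤ 18 * n * (p (n + n) 0).toReal := by
    have b1 : 0 ≤ ∑ x ∈ box 0 R, (p n x).toReal ^ 2 := Finset.sum_nonneg fun _ _ => sq_nonneg _
    have b2 := mul_le_mul a6 a4 b1 (by positivity)
    nlinarith
  rw [← ENNReal.toReal_le_toReal (by simp [hn.ne']) (ENNReal.mul_ne_top (by norm_num) hf2)]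
  simp only [ENNReal.toReal_inv, ENNReal.toReal_natCast, ENNReal.toReal_mul, ENNReal.toReal_ofNat]
  rw [inv_le_iff_one_le_mul₀ hn0]
  nlinarith

lemma harm : ∑' s : ℕ, ((s + 1 : ℕ) : ℝ≥0∞)⁻¹ = ⊤ := by
  by_contra h
  have := ENNReal.summable_toReal h
  simp only [ENNReal.toReal_inv, ENNReal.toReal_natCast] at this
  exact Real.not_summable_natCast_inv ((summable_nat_add_iff 1).1 this)

lemma g_big (K : ℕ) : ∃ n, ∀ m, n ≤ m → (K : ℝ≥0∞) ≤ g m 0 := by
  have h1 : ∑' s, p s 0 = ⊤ := by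
    by_contra h
    have a1 := ENNReal.tsum_comp_le_tsum_of_injective (f := fun s : ℕ => s + 1 + (s + 1))
      (fun a b h => by dsimp only at h; omega) fun s => p s 0
    have a2 := ENNReal.tsum_le_tsum fun s => p_low (s + 1) s.succ_pos
    rw [harm, ENNReal.tsum_mul_left] at a2
    exact ENNReal.mul_ne_top (by norm_num) (ne_top_of_le_ne_top h a1) (top_le_iff.1 a2)
  have h2 := ENNReal.tendsto_nat_tsum fun s => p s 0
  rw [h1] at h2
  obtain ⟨n, hn⟩ := (h2.eventually (lt_mem_nhds (ENNReal.natCast_lt_top K))).exists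
  exact ⟨n, fun m hm => hn.le.trans (Finset.sum_le_sum_of_subset (Finset.range_mono (by omega)))⟩

lemma h_sum (n : ℕ) : (∑' x, h n x) * g n 0 ≤ (2 * n + 1 : ℕ) := by
  rw [← ENNReal.tsum_mul_right]
  refine (ENNReal.tsum_le_tsum (h_g n n)).trans ?_
  simp only [g]
  rw [Summable.tsum_finsetSum fun _ _ => ENNReal.summable]
  simp [p_sum, two_mul]

end Pool.Agent.H.MP_e1341d_pr
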